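import Mathlib
import Pool.Agent.W467.EM.Main

/-! The Eisenbud-Mazur conjecture for ideals of big height at most two, and
`I ^ (m + h - 1) ⊆ 𝔪 I ^ (m)` (symbolic powers) for ideals of big height at most `h`. -/

set_option autoImplicit false

namespace Pool.Agent.Results.MP_d965d2_ag.BigHeight

open Pool.Agent.W467.EM

/-- The symbolic power `I ^ (m)`: the ideal of all `x` such that, for each minimal prime `Q` of
`I`, there is `s ∉ Q` with `s * x ∈ I ^ m`. -/
def symbolicPower {R : Type*} [CommRing R] (I : Ideal R) (m : ℕ) : Ideal R where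
  carrier := {x | ∀ Q ∈ I.minimalPrimes, ∃ s, s ∉ Q ∧ s * x ∈ I ^ m}
  add_mem' := (symb I m).add_mem'
  zero_mem' := (symb I m).zero_mem'
  smul_mem' := (symb I m).smul_mem'

theorem symbolicPower_eq {R : Type*} [CommRing R] (I : Ideal R) (m : ℕ) :
    symbolicPower I m = symb I m := rfl

/-- Let `R` be the localization of `K[x_1, …, x_n]` at a prime ideal, `K` a field, let `𝔪` be its
maximal ideal and `I` a proper radical ideal all of whose minimal primes have height at most `h`,
where `h ≥ 2`. Then `I ^ (1) = I`, and `I ^ (m + h - 1) ⊆ 𝔪 I ^ (m)` for all `m ≥ 1`.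
For `h = 2` and `m = 1` this is the conjecture of Eisenbud and Mazur: `I ^ (2) ⊆ 𝔪 I`. -/
theorem result {K : Type*} [Field K] (n : ℕ) (p : Ideal (MvPolynomial (Fin n) K)) [p.IsPrime]
    (I : Ideal (Localization.AtPrime p)) (hI : I.IsRadical) (hI' : I ≠ ⊤)
    (h : ℕ) (hh : 2 ≤ h) (hht : ∀ Q ∈ I.minimalPrimes, Q.height ≤ h) :
    symbolicPower I 1 = I ∧ ∀ m : ℕ, 1 ≤ m →
      symbolicPower I (m + h - 1) ≤
        IsLocalRing.maximalIdeal (Localization.AtPrime p) * symbolicPower I m := by
  refine ⟨le_antisymm ?_ ?_, fun m hm => ?_⟩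
  · intro x hx
    apply hI
    rw [← Ideal.sInf_minimalPrimes, Submodule.mem_sInf]
    intro Q hQ
    obtain ⟨s, hs, hsx⟩ := hx Q hQ
    rw [pow_one] at hsx
    exact (hQ.1.1.mem_or_mem (hQ.1.2 hsx)).resolve_left hs
  · have h1 := pow_le_symb I 1
    rw [pow_one] at h1
    exact h1
  · have h2 := main p I hI hI' (m := m) (h := h - 1) hm (by omega) (fun Q hQ => by
      have : h - 1 + 1 = h := by omega
      rw [this]
      exact hht Q hQ)
    have h3 : m + (h - 1) = m + h - 1 := by omega
    rw [h3] at h2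
    exact h2

end Pool.Agent.Results.MP_d965d2_ag.BigHeight
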